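import Pool.Agent.Work.MP_c5c797_nt.VanishNeg
import Pool.Agent.Work.MP_c5c797_nt.Irred

/-!
Disproof of the conjecture on generators of index-one weak Jacobi forms: there is an irreducible,
non-unimodular even positive definite lattice of rank `15` and determinant `2` (the orthogonal
complement of a root in the even unimodular lattice `D₁₆⁺`) without nonzero weak Jacobi forms of
weight `k ≤ 0` and index one.
-/

open UpperHalfPlane hiding I
open Complex ModularForm MatrixGroups
open scoped Real

namespace Pool.Agent.Results.MP_c5c797_nt.Disproof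

open Pool.Agent.Work.MP_c5c797_nt EvenLattice

theorem exists_ne_zero_form (j : ℤ) (hj : j = 0) : ∃ f : ModularForm 𝒮ℒ j, f ≠ 0 := by
  subst hj
  refine ⟨1, fun h => ?_⟩
  have h1 := DFunLike.congr_fun h UpperHalfPlane.I
  simp at h1

theorem zero_isWeakJacobi {n : ℕ} (L : EvenLattice n) (k : ℤ) :
    L.IsWeakJacobi k (fun _ _ => 0) where
  holo := by fun_prop
  modular := by simp
  elliptic := by simp
  fourier := ⟨fun _ _ => 0, by simp⟩

theorem elt_ne_zero {n : ℕ} {L : EvenLattice n} {ι : Type} (B : L.HomogeneousBasis ι) (i : ι) :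
    ¬ ∀ τ z, B.elt i τ z = 0 := by
  classical
  intro h0
  obtain ⟨c, -, huniq⟩ := B.existsUnique (B.weight i) _ (zero_isWeakJacobi L (B.weight i))
  have h1 := huniq (fun _ => 0) ⟨by simp, by simp⟩
  obtain ⟨f, hf⟩ := exists_ne_zero_form (B.weight i - B.weight i) (sub_self _)
  have h2 := huniq (Function.update (fun _ => 0) i f) ⟨by
      refine (Set.finite_singleton i).subset ?_
      intro j hj
      by_contra hne
      simp only [Set.mem_singleton_iff] at hne
      simp [Function.update_of_ne hne] at hj, by
      intro τ z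
      symm
      refine finsum_eq_zero_of_forall_eq_zero fun j => ?_
      by_cases hj : j = i
      · subst hj
        rw [h0]
        simp
      · simp [Function.update_of_ne hj]⟩
  rw [← h1] at h2
  have h3 := congrFun h2 i
  simp at h3
  exact hf h3

theorem result : ∃ L : EvenLattice 15, L.Irreducible ∧ ¬ L.Unimodular ∧
    (∀ k : ℤ, k ≤ 0 → ∀ φ : ℍ → (Fin 15 → ℂ) → ℂ, L.IsWeakJacobi k φ → φ = 0) ∧
    ∀ (ι : Type) (B : L.HomogeneousBasis ι),
      (∀ i, 0 < B.weight i) ∧ ¬ ∃! i, B.weight i = 0 := by
  refine ⟨L15, L15_irreducible, L15_not_unimodular, ?_, ?_⟩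
  · intro k hk φ h
    funext τ z
    exact nonpos_weight_vanish hk h τ z
  · intro ι B
    have hpos : ∀ i, 0 < B.weight i := by
      intro i
      by_contra hle
      rw [not_lt] at hle
      exact elt_ne_zero B i (nonpos_weight_vanish hle (B.isWeakJacobi i))
    refine ⟨hpos, ?_⟩
    rintro ⟨i, hi, -⟩
    exact absurd hi (hpos i).ne'

end Pool.Agent.Results.MP_c5c797_nt.Disproof
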